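import Pool.Agent.H2.NF.S3
import Pool.Agent.H51.T1.BDP

/-!
# NF, rows BDPN and BD2N: nearness of the transferred forms
-/

set_option autoImplicit false

namespace Pool.NF

open Polynomial Matrix Pool.HYP Pool.TOW Pool.AVS Pool.T1 IsDedekindDomain NumberField

/-- The first half of BDPN. -/
theorem bdn_half (W : WAPStmt) (SA : SEMANStmt) (SB : SEMBNStmt)
    (K : Type) [Field K] [NumberField K] (n N : ℕ) (ω : Module.Basis (Fin n) ℚ K) (p : ℕ)
    (hp : p.Prime) (A B : Matrix (Fin N) (Fin N) K)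
    (hN : ∀ P : HeightOneSpectrum (𝓞 K), Abv p P → Near (RP K P) A B) (a : ℚ) (ha : a ≠ 0) :
    ∃ h : Matrix (Fin N) (Fin N) K, h.det ≠ 0 ∧
      (∀ x y, (trm ω (hᵀ * A * h) x y - trm ω B x y) / a ∈ IZ p) := by
  -- denominators
  obtain ⟨b, hb⟩ := IsLocalization.exist_integer_multiples_of_finite (nonZeroDivisors (𝓞 K))
    (Sum.elim (fun x : Fin n × Fin n => ω x.1 * ω x.2) (fun x : Fin N × Fin N => B x.1 x.2))
  have hb0 : algebraMap (𝓞 K) K (b : 𝓞 K) ≠ 0 :=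
    IsFractionRing.to_map_ne_zero_of_mem_nonZeroDivisors b.2
  have hnum : a.num ≠ 0 := Rat.num_ne_zero.2 ha
  have hnumK : ((a.num : ℤ) : K) ≠ 0 := Int.cast_ne_zero.2 hnum
  obtain ⟨c, hc⟩ : ∃ c : K, c = algebraMap (𝓞 K) K ((a.num : 𝓞 K) * (b : 𝓞 K)) := ⟨_, rfl⟩
  have hc' : c = ((a.num : ℤ) : K) * algebraMap (𝓞 K) K (b : 𝓞 K) := by
    rw [hc, map_mul, map_intCast]
  have hc0 : c ≠ 0 := by
    rw [hc']
    exact mul_ne_zero hnumK hb0
  choose! k hk1 hk2 using fun P (hP : Abv p P) => hN P hP c hc0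
  have hfin := (SA K).1 p hp.ne_zero
  obtain ⟨h, hh1, hh2⟩ := (W (𝓞 K) K hfin.toFinset (c * algebraMap (𝓞 K) K (b : 𝓞 K))
    (mul_ne_zero hc0 hb0)).2 N k (fun P hP => hk1 P (hfin.mem_toFinset.1 hP))
  have key : ∀ P : HeightOneSpectrum (𝓞 K), Abv p P →
      ∀ i j, (hᵀ * A * h - B) i j / c ∈ BDP.rp K P := by
    intro P hP
    refine BDP.near (b := algebraMap (𝓞 K) K (b : 𝓞 K)) hc0 hb0 ?_ (BDP.alg P _)
      (hk1 P hP) ?_ (hk2 P hP) (hh2 P (hfin.mem_toFinset.2 hP))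
    · rw [hc]
      exact BDP.alg P _
    · intro i j
      obtain ⟨r, hr⟩ := hb (Sum.inr (i, j))
      rw [Matrix.smul_apply, smul_eq_mul]
      have : algebraMap (𝓞 K) K (b : 𝓞 K) * B i j = algebraMap (𝓞 K) K r := by
        rw [hr, Sum.elim_inr, Algebra.smul_def]
      rw [this]
      exact BDP.alg P _
  refine ⟨h, hh1, fun x y => ?_⟩
  have e1 : (trm ω (hᵀ * A * h) x y - trm ω B x y) = Algebra.trace ℚ K
      (ω x.2 * ω y.2 * (hᵀ * A * h - B) x.1 y.1) := by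
    simp only [trm, Matrix.of_apply, Matrix.sub_apply, mul_sub, map_sub]
  obtain ⟨r, hr⟩ := hb (Sum.inl (x.2, y.2))
  have e0 : algebraMap (𝓞 K) K r =
      algebraMap (𝓞 K) K (b : 𝓞 K) * (ω x.2 * ω y.2) := by
    rw [hr, Sum.elim_inl, Algebra.smul_def]
  have e2 : ω x.2 * ω y.2 * (hᵀ * A * h - B) x.1 y.1 = (a.num : ℚ) •
      (algebraMap (𝓞 K) K r * ((hᵀ * A * h - B) x.1 y.1 / c)) := by
    rw [Algebra.smul_def, e0, hc', map_intCast]
    field_simp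
  have m1 : algebraMap (𝓞 K) K r * ((hᵀ * A * h - B) x.1 y.1 / c) ∈
      IS K p := fun P hP =>
    (BDP.rp K P).mul_mem (BDP.alg P r) (key P hP x.1 y.1)
  have m2 := ((SB K p hp _ m1).2).1
  have hd : (a.den : ℚ) ≠ 0 := Nat.cast_ne_zero.2 a.den_ne_zero
  have e3 : (trm ω (hᵀ * A * h) x y - trm ω B x y) / a = (a.den : ℚ) *
      Algebra.trace ℚ K
        (algebraMap (𝓞 K) K r * ((hᵀ * A * h - B) x.1 y.1 / c)) := by
    rw [e1, e2, map_smul, smul_eq_mul]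
    have hn : (a.num : ℚ) = a * (a.den : ℚ) := (Rat.mul_den_eq_num a).symm
    rw [hn]
    field_simp
  rw [e3]
  -- the integral elements are closed under multiplication by integers
  intro hdiv
  apply m2
  refine hdiv.trans ?_
  have h1 := Rat.mul_den_dvd ((a.den : ℕ) : ℚ)
    (Algebra.trace ℚ K (algebraMap (𝓞 K) K r * ((hᵀ * A * h - B) x.1 y.1 / c)))
  rw [Rat.den_natCast, one_mul] at h1
  exact h1

/-- Row BD2N. -/
theorem bd2n (T : TRFStmt) (W : WAPStmt) (SA : SEMANStmt) (SB : SEMBNStmt) : BD2NStmt := by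
  intro K _ _ n N ω A B hN a ha
  obtain ⟨t1, -, t3, -⟩ := T ℚ K n N ω
  obtain ⟨h, hh, h1⟩ := bdn_half W SA SB K n N ω 2 Nat.prime_two A B hN a ha
  refine ⟨lmm ω h, ?_, fun x y => ?_⟩
  · rw [t3]
    exact fun h0 => hh (Algebra.norm_eq_zero_iff.1 h0)
  · rw [t1 A h, Matrix.sub_apply]
    exact h1 x y

/-- Row BDPN. -/
theorem bdpn (H : HYBStmt) (I : IZVStmt) (T : TRFStmt) (W : WAPStmt) (SA : SEMANStmt)
    (SB : SEMBNStmt) : BDPNStmt := by
  intro K _ _ n N ω p hp hp2 A B hA hB hBd hN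
  obtain ⟨O, hO, ⟨hU1, hU2, hU3, -⟩, -⟩ := I p hp
  obtain ⟨t1, t2, t3, t4, t5, -⟩ := T ℚ K n N ω
  have hBs : (trm ω B)ᵀ = trm ω B := t5 B hB
  have hBdet : (trm ω B).det ≠ 0 := by
    rw [t2]
    exact mul_ne_zero (pow_ne_zero _ t4) (by rw [Ne, Algebra.norm_eq_zero_iff]; exact hBd)
  obtain ⟨a, ha, hyb⟩ := H ℚ O (Fin N × Fin n) (trm ω B) two_ne_zero ⟨(p : ℚ), hU1, hU2, hU3⟩
    hBs hBdet
  obtain ⟨h, hh1, hh2⟩ := bdn_half W SA SB K n N ω p hp A B hN a ha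
  obtain ⟨g, hg1, hg2⟩ := hyb (trm ω (hᵀ * A * h)) (t5 _ (by
    rw [Matrix.transpose_mul, Matrix.transpose_mul, Matrix.transpose_transpose, hA,
      Matrix.mul_assoc])) (by
    intro x y
    have h1 := hh2 x y
    rw [← hO] at h1
    exact h1)
  rw [hO] at hg2
  refine ⟨Matrix.fromBlocks (lmm ω h) 0 0 1 * g, ?_, ?_⟩
  · rw [Matrix.det_mul, Matrix.det_fromBlocks_zero₂₁, Matrix.det_one, mul_one, t3]
    exact mul_ne_zero (by rw [Ne, Algebra.norm_eq_zero_iff]; exact hh1) hg1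
  · have e : (Matrix.fromBlocks (lmm ω h) 0 0 1 * g)ᵀ *
        Matrix.fromBlocks (trm ω A) 0 0 (-trm ω B) * (Matrix.fromBlocks (lmm ω h) 0 0 1 * g) =
        gᵀ * Matrix.fromBlocks (trm ω (hᵀ * A * h)) 0 0 (-trm ω B) * g := by
      rw [← t1 A h, Matrix.transpose_mul, Matrix.fromBlocks_transpose]
      have : Matrix.fromBlocks ((lmm ω h)ᵀ * trm ω A * lmm ω h) 0 0 (-trm ω B) =
          Matrix.fromBlocks (lmm ω h)ᵀ 0 0 1 * Matrix.fromBlocks (trm ω A) 0 0 (-trm ω B) *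
            Matrix.fromBlocks (lmm ω h) 0 0 (1 : Matrix (Fin N × Fin n) (Fin N × Fin n) ℚ) := by
        rw [Matrix.fromBlocks_multiply, Matrix.fromBlocks_multiply]
        simp
      rw [this]
      simp only [Matrix.transpose_zero, Matrix.transpose_one, Matrix.mul_assoc]
    rw [e]
    exact hg2

end Pool.NF
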