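import Pool.Agent.H41.NF.Cnt

/-!
# NF, row NAD: the possible degrees
-/

set_option autoImplicit false

namespace Pool.NF

open Polynomial Matrix Pool.HYP Pool.T1 IsDedekindDomain NumberField

theorem nad (hN : NRMStmt) : NADStmt := by
  intro K _ _ C x D d f p hC hx hd hp
  obtain ⟨⟨hG, -, hGB, hSB, -⟩, hdet, -, h00⟩ := hp
  have hz : ∀ (a : 𝓞 K) (ρ : ℝ), a ∈ Bx K ρ → ρ < 1 → a = 0 :=
    fun a ρ h1 h2 => (hN K a ρ h1).1 h2
  have hCe : ∀ t : ℝ, t < -C → C * Real.exp t < 1 := by
    intro t ht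
    have h1 : Real.exp t < Real.exp (-C) := Real.exp_lt_exp.2 ht
    have h2 : C < Real.exp C := by
      have := Real.add_one_le_exp C
      linarith
    have h3 : C * Real.exp t < C * Real.exp (-C) := mul_lt_mul_of_pos_left h1 (by linarith)
    have h4 : C * Real.exp (-C) < 1 := by
      rw [Real.exp_neg, mul_inv_lt_iff₀ (Real.exp_pos C)]
      linarith
    linarith
  have hGz : ∀ i j, d i + d j < -C → p.1 i j = 0 := fun i j h => hz _ _ (hGB i j) (hCe _ h)
  have h01 : d 0 ≤ d 1 := hd (by decide)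
  have h12 : d 1 ≤ d 2 := hd (by decide)
  refine ⟨?_, ?_, ?_⟩
  · by_contra h
    have h' := not_le.1 h
    apply hdet
    rw [Matrix.det_fin_three, hGz 0 0 (by linarith), hGz 0 1 (by linarith), hGz 0 2 h']
    ring
  · by_contra h
    have h' := not_le.1 h
    apply hdet
    rw [Matrix.det_fin_three, hGz 0 0 (by linarith), hGz 0 1 (by linarith),
      hGz 1 1 (by linarith), hGz 1 0 (by linarith)]
    ring
  · by_contra h
    have h' := not_le.1 h
    have he : Real.exp (d 0 + d 0) = Real.exp (2 * d 0) := by rw [two_mul]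
    have hS : C * x * Real.exp (d 0 + d 0) < 1 := by rw [he]; exact h'
    have hG' : C * Real.exp (d 0 + d 0) < 1 := by
      have h1 : C * Real.exp (d 0 + d 0) ≤ C * x * Real.exp (d 0 + d 0) := by
        apply mul_le_mul_of_nonneg_right _ (Real.exp_pos _).le
        nlinarith
      linarith
    exact h00 ⟨hz _ _ (hGB 0 0) hG', hz _ _ (hSB 0 0) hS⟩

end Pool.NF
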