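import Pool.Agent.H85.NF.Q

/-!
# NF, row LQD: local data for a diagonal form
-/

set_option autoImplicit false

namespace Pool.NF

open Matrix Pool.T1 Pool.AVS

open Classical in
/-- Row LQD. -/
theorem lqd (hZ : ZPBStmt) : LQDStmt := by
  intro p hp ι _ _ c hc
  obtain ⟨⟨O, hO, -⟩, h1, -, -, -⟩ := hZ p hp
  have hP : (p : ℚ) ≠ 0 := Nat.cast_ne_zero.2 hp.ne_zero
  have hmul : ∀ x y : ℚ, x ∈ Zp p → y ∈ Zp p → x * y ∈ Zp p := by
    intro x y hx hy
    rw [← hO] at hx hy ⊢
    exact O.mul_mem _ _ hx hy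
  have hone : (1 : ℚ) ∈ Zp p := by
    rw [← hO]
    exact O.one_mem
  have hzero : (0 : ℚ) ∈ Zp p := by
    rw [← hO]
    exact O.zero_mem
  have hpz : (p : ℚ) ∈ Zp p := by
    rw [← hO]
    exact natCast_mem O p
  obtain ⟨v, hv⟩ : ∃ v : ι → ℤ, ∀ i, v i = padicValRat p (c i) := ⟨_, fun _ => rfl⟩
  obtain ⟨k, hk⟩ : ∃ k : ι → ℤ, ∀ i, k i = v i / 2 := ⟨_, fun _ => rfl⟩
  obtain ⟨w, hw⟩ : ∃ w : ι → ℚ, ∀ i, w i = up p (c i) := ⟨_, fun _ => rfl⟩
  have hcu : ∀ i, c i = w i * (p : ℚ) ^ v i := by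
    intro i
    rw [hw, hv, up, div_mul_cancel₀]
    exact zpow_ne_zero _ hP
  have hwU : ∀ i, UI (Zp p) (w i) := fun i => by
    rw [hw]
    exact (h1 (c i) (hc i)).1
  have hodd : ∀ i, Odd (v i) → v i = 2 * k i + 1 := by
    intro i h
    have := Int.odd_iff.1 h
    rw [hk]
    omega
  have heven : ∀ i, ¬ Odd (v i) → v i = 2 * k i := by
    intro i h
    have := Int.not_odd_iff_even.1 h
    have := Int.even_iff.1 this
    rw [hk]
    omega
  have hPk : ∀ i, (p : ℚ) ^ k i ≠ 0 := fun i => zpow_ne_zero _ hP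
  -- the entries
  have hco : ∀ i, Odd (v i) → c i = w i * ((p : ℚ) ^ k i) ^ 2 * p := by
    intro i h
    rw [hcu i, hodd i h, zpow_add₀ hP, zpow_one, mul_comm (2 : ℤ), _root_.zpow_mul]
    rw [show (2 : ℤ) = ((2 : ℕ) : ℤ) from rfl, zpow_natCast]
    ring
  have hce : ∀ i, ¬ Odd (v i) → c i = w i * ((p : ℚ) ^ k i) ^ 2 := by
    intro i h
    rw [hcu i, heven i h, mul_comm (2 : ℤ), _root_.zpow_mul]
    rw [show (2 : ℤ) = ((2 : ℕ) : ℤ) from rfl, zpow_natCast]
  obtain ⟨g, hg⟩ : ∃ g : Matrix ι ι ℚ, g = Matrix.diagonal fun i => ((p : ℚ) ^ k i)⁻¹ := ⟨_, rfl⟩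
  have hginv : g⁻¹ = Matrix.diagonal fun i => (p : ℚ) ^ k i := by
    apply Matrix.inv_eq_right_inv
    rw [hg, Matrix.diagonal_mul_diagonal, ← Matrix.diagonal_one]
    refine congrArg Matrix.diagonal (funext fun i => ?_)
    exact inv_mul_cancel₀ (hPk i)
  have hgt : gᵀ = g := by rw [hg, Matrix.diagonal_transpose]
  obtain ⟨u, hu⟩ : ∃ u : {i : ι // Odd (padicValRat p (c i))} → ι → ℚ,
      ∀ e, u e = Pi.single (e : ι) (((p : ℚ) ^ k e)⁻¹ * (p : ℚ)⁻¹) := ⟨_, fun _ => rfl⟩
  have hGu : ∀ e, Matrix.diagonal c *ᵥ u e =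
      Pi.single (e : ι) (w e * (p : ℚ) ^ k e) := by
    intro e
    rw [hu e]
    funext i
    rw [Matrix.mulVec_diagonal]
    by_cases h : i = e
    · subst h
      rw [Pi.single_eq_same, Pi.single_eq_same, hco e (by rw [hv]; exact e.2)]
      have := hPk e
      field_simp
    · rw [Pi.single_eq_of_ne h, Pi.single_eq_of_ne h, mul_zero]
  refine ⟨g, {i : ι // Odd (padicValRat p (c i))}, inferInstance, inferInstance, u, ?_, ?_, ?_, ?_,
    ?_, ?_, ?_⟩
  · rw [hg, Matrix.det_diagonal]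
    exact Finset.prod_ne_zero_iff.2 fun i _ => inv_ne_zero (hPk i)
  · rw [Fintype.card_subtype]
  · intro i j
    rw [hgt, hg, Matrix.diagonal_mul_diagonal, Matrix.diagonal_mul_diagonal]
    by_cases h : i = j
    · subst h
      rw [Matrix.diagonal_apply_eq]
      by_cases h2 : Odd (v i)
      · have e1 : ((p : ℚ) ^ k i)⁻¹ * c i * ((p : ℚ) ^ k i)⁻¹ = w i * p := by
          rw [hco i h2]
          have := hPk i
          field_simp
        rw [e1]
        exact hmul _ _ (hwU i).2.1 hpz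
      · have e1 : ((p : ℚ) ^ k i)⁻¹ * c i * ((p : ℚ) ^ k i)⁻¹ = w i := by
          rw [hce i h2]
          have := hPk i
          field_simp
        rw [e1]
        exact (hwU i).2.1
    · rw [Matrix.diagonal_apply_ne _ h]
      exact hzero
  · intro e i
    rw [hGu, hgt, hg, Matrix.mulVec_diagonal]
    by_cases h : i = e
    · subst h
      rw [Pi.single_eq_same]
      have e1 : ((p : ℚ) ^ k e)⁻¹ * (w e * (p : ℚ) ^ k e) = w e := by
        have := hPk e
        field_simp
      rw [e1]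
      exact (hwU e).2.1
    · rw [Pi.single_eq_of_ne h, mul_zero]
      exact hzero
  · intro e i
    rw [hginv, Matrix.mulVec_diagonal, hu e]
    by_cases h : i = e
    · subst h
      rw [Pi.single_eq_same]
      have e1 : (p : ℚ) * ((p : ℚ) ^ k e * (((p : ℚ) ^ k e)⁻¹ * (p : ℚ)⁻¹)) = 1 := by
        have := hPk e
        field_simp
      rw [e1]
      exact hone
    · rw [Pi.single_eq_of_ne h, mul_zero, mul_zero]
      exact hzero
  · intro x hx hxe i
    rw [hginv, Matrix.mulVec_diagonal]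
    have e0 : (p : ℚ) ^ k i * x i = (w i)⁻¹ * (w i * ((p : ℚ) ^ k i * x i)) := by
      have := (hwU i).1
      field_simp
    rw [e0]
    refine hmul _ _ (hwU i).2.2 ?_
    by_cases h2 : Odd (v i)
    · have h3 := hxe ⟨i, by rw [← hv]; exact h2⟩
      rw [hGu, dotProduct_single] at h3
      have e1 : w i * ((p : ℚ) ^ k i * x i) = x i * (w i * (p : ℚ) ^ k i) := by ring
      rw [e1]
      exact h3
    · have h3 := hx i
      rw [hgt, hg, Matrix.mulVec_diagonal, Matrix.mulVec_diagonal, hce i h2] at h3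
      have e1 : w i * ((p : ℚ) ^ k i * x i) =
          ((p : ℚ) ^ k i)⁻¹ * (w i * ((p : ℚ) ^ k i) ^ 2 * x i) := by
        have := hPk i
        field_simp
      rw [e1]
      exact h3
  · have e1 : (Matrix.of fun e e' : {i : ι // Odd (padicValRat p (c i))} =>
        rsd p ((p : ℚ) * (u e ⬝ᵥ (Matrix.diagonal c *ᵥ u e')))) =
        Matrix.diagonal (fun e : {i : ι // Odd (padicValRat p (c i))} => rsd p (w e)) := by
      ext e e'
      rw [Matrix.of_apply, hGu, dotProduct_single, hu e]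
      by_cases h : e = e'
      · subst h
        rw [Pi.single_eq_same, Matrix.diagonal_apply_eq]
        have := hPk e
        refine congrArg (rsd p) ?_
        field_simp
      · have h' : (e' : ι) ≠ e := fun h0 => h (Subtype.ext h0.symm)
        rw [Pi.single_eq_of_ne h', Matrix.diagonal_apply_ne _ h, zero_mul, mul_zero]
        unfold rsd
        simp
    rw [e1, Matrix.det_diagonal]
    have e2 : (∏ i ∈ Finset.univ.filter fun i => Odd (padicValRat p (c i)),
        rsd p (up p (c i))) =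
        ∏ e : {i : ι // Odd (padicValRat p (c i))}, rsd p (up p (c e)) :=
      Finset.prod_subtype _ (fun i => by simp) _
    rw [e2]
    exact Finset.prod_congr rfl fun e _ => by rw [hw]

end Pool.NF
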